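import Mathlib
import Pool.Agent.N248.SD.H
set_option autoImplicit false

/-!
# Superlevel sets of `E f` and additive energy

Let `d = n + 1 ≥ 2` and let `E` be the extension operator of the truncated paraboloid in `ℝ^d`. The
restriction conjecture says that for all `p > 2d/(d-1)` the measure of `{|E f| ≥ λ}` is at most
`C_p (‖f‖_∞ / λ)^p`. The additive energy of a set `B` of finite measure is

  `E(B) = ∫ |{y : y ∈ B, w - y ∈ B}|² dw ≤ |B|³`.

The theorem says that every measurable subset `B` of the superlevel set with `E(B) ≥ δ |B|³`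
satisfies the endpoint bound

  `|B| ≤ C δ^(-(d+1)/(2(d-1))) (‖f‖_∞ / λ)^(2d/(d-1))`.

So the conjecture can only fail because of sets which are unstructured with respect to addition:
if it fails then there are superlevel sets all of whose large subsets have additive energy smaller
than the trivial bound by a power of the measure. The statement with two sets is

  `λ⁴ E(A,B)^(1 + 1/d) ≤ C |A|^(1 + 3/d) |B|^(2/d) ‖f‖_∞⁴`,
  `E(A,B) = ∫ |{y : y ∈ A, w - y ∈ B}|² dw`,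

for every measurable `A` and every measurable subset `B` of the superlevel set.
-/

namespace Pool.Agent.Results.MP_b7167f_an.AdditiveEnergy


open MeasureTheory Set Complex
open scoped ENNReal NNReal RealInnerProductSpace Pointwise

/-- The closed cube `[-1,1]^n`. -/
def cube (n : ℕ) : Set (EuclideanSpace ℝ (Fin n)) := {ξ | ∀ j, |ξ j| ≤ 1}

/-- The extension operator of the truncated paraboloid in `ℝ^(n+1)`:
`Ef(x) = ∫_{[-1,1]^n} f(ξ) exp(2πi(∑_{j<n} ξ_j x_j + |ξ|² x_n)) dξ`. -/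
noncomputable def ext {n : ℕ} (f : EuclideanSpace ℝ (Fin n) → ℂ)
    (x : EuclideanSpace ℝ (Fin (n + 1))) : ℂ :=
  ∫ ξ in cube n, f ξ *
    cexp (2 * Real.pi * I * ((∑ j, ξ j * x j.castSucc + (∑ j, ξ j ^ 2) * x (Fin.last n) : ℝ) : ℂ))

open Pool.Agent.N248.SD Pool.Agent.R412.RT in
lemma ext_eq {n : ℕ} (f : EuclideanSpace ℝ (Fin n) → ℂ) (x : EuclideanSpace ℝ (Fin (n + 1))) :
    ext f x = Ex ((cube n).indicator f) x := by
  have hc : MeasurableSet (cube n) := by
    have : cube n = ⋂ j, {ξ : EuclideanSpace ℝ (Fin n) | |ξ j| ≤ 1} := by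
      ext ξ; simp [cube]
    rw [this]
    exact MeasurableSet.iInter fun j => measurableSet_le (by fun_prop) measurable_const
  unfold ext Ex
  rw [← integral_indicator hc]
  refine integral_congr_ae (Filter.Eventually.of_forall fun ξ => ?_)
  simp only
  by_cases hξ : ξ ∈ cube n
  · rw [indicator_of_mem hξ, indicator_of_mem hξ, mul_comm]
    congr 1
    unfold ee
    congr 1
    have : ⟪Phi ξ, x⟫ = ∑ j, ξ j * x j.castSucc + (∑ j, ξ j ^ 2) * x (Fin.last n) := by
      rw [inner_eq, Fin.sum_univ_castSucc]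
      simp
    rw [this]
    ring
  · rw [indicator_of_notMem hξ, indicator_of_notMem hξ, mul_zero]

lemma cube_meas (n : ℕ) : MeasurableSet (cube n) := by
  have : cube n = ⋂ j, {ξ : EuclideanSpace ℝ (Fin n) | |ξ j| ≤ 1} := by
    ext ξ; simp [cube]
  rw [this]
  exact MeasurableSet.iInter fun j => measurableSet_le (by fun_prop) measurable_const

lemma cube_vol (n : ℕ) : volume (cube n) ≠ ∞ := by
  have hsub : cube n ⊆ Metric.closedBall (0 : EuclideanSpace ℝ (Fin n)) (Real.sqrt n) := by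
    intro ξ hξ
    rw [mem_closedBall_zero_iff, EuclideanSpace.norm_eq]
    refine Real.sqrt_le_sqrt ?_
    have : ∑ i : Fin n, ‖ξ i‖ ^ 2 ≤ ∑ i : Fin n, (1 : ℝ) := by
      refine Finset.sum_le_sum fun i _ => ?_
      rw [Real.norm_eq_abs]
      have h := hξ i
      have h0 := abs_nonneg (ξ i)
      nlinarith
    rw [Finset.sum_const, Finset.card_univ, Fintype.card_fin, nsmul_eq_mul, mul_one] at this
    exact this
  exact ((measure_mono hsub).trans_lt measure_closedBall_lt_top).ne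

/-- The additive energy `∫ |{y : y ∈ A, w - y ∈ B}|² dw`. -/
noncomputable def addEnergy {N : ℕ} (A B : Set (EuclideanSpace ℝ (Fin N))) : ℝ≥0∞ :=
  ∫⁻ w, volume {y | y ∈ A ∧ w - y ∈ B} ^ 2

open Pool.Agent.N248.SD in
lemma main (n : ℕ) :
    ∃ C : ℝ≥0, ∀ (f : EuclideanSpace ℝ (Fin n) → ℂ) (lam : ℝ)
      (A B : Set (EuclideanSpace ℝ (Fin (n + 1)))),
      MemLp f ∞ (volume.restrict (cube n)) → 0 ≤ lam → MeasurableSet A → MeasurableSet B →
      (∀ x ∈ B, lam ≤ ‖ext f x‖) →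
      ENNReal.ofReal lam ^ 4 * addEnergy A B ^ (1 + 1 / ((n : ℝ) + 1)) ≤
        C * volume A ^ (1 + 3 / ((n : ℝ) + 1)) * volume B ^ (2 / ((n : ℝ) + 1)) *
          eLpNorm f ∞ (volume.restrict (cube n)) ^ 4 := by
  have hK : (ENNReal.ofReal (Cg n) * (Rz (n + 1) + 1)) ^ 2 ≠ ∞ :=
    ENNReal.pow_ne_top (ENNReal.mul_ne_top ENNReal.ofReal_ne_top
      (ENNReal.add_ne_top.2 ⟨Rz_ne_top (n + 1) (by omega), ENNReal.one_ne_top⟩))
  refine ⟨((ENNReal.ofReal (Cg n) * (Rz (n + 1) + 1)) ^ 2).toNNReal + 1, ?_⟩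
  intro f lam A B hf hlam hA hB hlev
  set K : ℝ≥0∞ := (ENNReal.ofReal (Cg n) * (Rz (n + 1) + 1)) ^ 2 with hKd
  set N : ℝ≥0∞ := eLpNorm f ∞ (volume.restrict (cube n)) with hN
  have hNt : N ≠ ∞ := hf.2.ne
  have hC : (((K.toNNReal + 1 : ℝ≥0)) : ℝ≥0∞) = K + 1 := by
    rw [ENNReal.coe_add, ENNReal.coe_toNNReal hK, ENNReal.coe_one]
  rw [hC]
  have hp1 : (0 : ℝ) < 1 + 1 / ((n : ℝ) + 1) := by positivity
  have hp2 : (0 : ℝ) < 1 + 3 / ((n : ℝ) + 1) := by positivity
  have hp3 : (0 : ℝ) < 2 / ((n : ℝ) + 1) := by positivity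
  have hen : addEnergy A B = ∫⁻ w, rep A B w ^ 2 := rfl
  -- null sets
  have hnull : volume A = 0 ∨ volume B = 0 → addEnergy A B = 0 := by
    intro h
    have h1 : ∫⁻ w, rep A B w = 0 := by
      rw [rep_int A B hA hB]
      rcases h with h | h <;> simp [h]
    have h2 := (lintegral_eq_zero_iff (rep_meas A B hA hB)).1 h1
    rw [hen, lintegral_eq_zero_iff ((rep_meas A B hA hB).pow_const 2)]
    filter_upwards [h2] with w hw
    have : rep A B w = 0 := hw
    simp [this]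
  rcases eq_or_ne (volume A) 0 with hA0 | hA0
  · rw [hnull (Or.inl hA0), ENNReal.zero_rpow_of_pos hp1, mul_zero]; exact zero_le
  rcases eq_or_ne (volume B) 0 with hB0 | hB0
  · rw [hnull (Or.inr hB0), ENNReal.zero_rpow_of_pos hp1, mul_zero]; exact zero_le
  have hBne : B.Nonempty := by
    rw [nonempty_iff_ne_empty]
    rintro rfl
    exact hB0 measure_empty
  -- reduction to a bounded function
  obtain ⟨f', hf'm, hff'⟩ := hf.1
  have hext : ∀ x, ext f x = ext f' x := by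
    intro x
    unfold ext
    refine integral_congr_ae ?_
    filter_upwards [hff'] with ξ hξ
    rw [hξ]
  have hN' : eLpNorm f' ∞ (volume.restrict (cube n)) = N := (eLpNorm_congr_ae hff').symm
  rcases eq_or_ne N 0 with h0 | h0
  · have hz : f' =ᵐ[volume.restrict (cube n)] 0 := by
      rw [h0] at hN'
      exact (eLpNorm_eq_zero_iff hf'm.aestronglyMeasurable (by simp)).1 hN'
    have hz2 : ∀ x, ext f x = 0 := by
      intro x
      rw [hext]
      unfold ext
      have : ∀ᵐ ξ ∂(volume.restrict (cube n)), f' ξ * cexp (2 * Real.pi * I *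
          ((∑ j, ξ j * x j.castSucc + (∑ j, ξ j ^ 2) * x (Fin.last n) : ℝ) : ℂ)) = 0 := by
        filter_upwards [hz] with ξ hξ
        rw [hξ]; simp
      rw [integral_congr_ae this, integral_zero]
    obtain ⟨x, hx⟩ := hBne
    have h1 := hlev x hx
    rw [hz2 x, norm_zero] at h1
    have h2 : lam = 0 := le_antisymm h1 hlam
    rw [h2, ENNReal.ofReal_zero, zero_pow (by norm_num), zero_mul]
    exact zero_le
  -- infinite sets
  have hN4 : N ^ 4 ≠ 0 := pow_ne_zero 4 h0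
  have hpos : ∀ (t : ℝ≥0∞) (s : ℝ), t ≠ 0 → 0 < s → t ^ s ≠ 0 := by
    intro t s ht hs h
    rw [ENNReal.rpow_eq_zero_iff] at h
    rcases h with h | h
    · exact ht h.1
    · linarith [h.2]
  have hK1 : K + 1 ≠ 0 := by simp
  rcases eq_or_ne (volume A) ∞ with hAf | hAf
  · rw [hAf, ENNReal.top_rpow_of_pos hp2, ENNReal.mul_top hK1,
      ENNReal.top_mul (hpos _ _ hB0 hp3), ENNReal.top_mul hN4]
    exact le_top
  rcases eq_or_ne (volume B) ∞ with hBf | hBf
  · rw [hBf, ENNReal.top_rpow_of_pos hp3, ENNReal.mul_top (mul_ne_zero hK1 (hpos _ _ hA0 hp2)),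
      ENNReal.top_mul hN4]
    exact le_top
  -- the main case
  set M : ℝ := N.toReal with hM
  have hM0 : 0 < M := ENNReal.toReal_pos h0 hNt
  have hMN : N = ENNReal.ofReal M := (ENNReal.ofReal_toReal hNt).symm
  set φ : EuclideanSpace ℝ (Fin n) → ℂ := (cube n).indicator fun ξ => (M : ℂ)⁻¹ * f' ξ with hφ
  have hφm : StronglyMeasurable φ := (hf'm.const_mul _).indicator (cube_meas n)
  have hbd : ∀ᵐ ξ, ‖φ ξ‖ ≤ (cube n).indicator (fun _ => (1 : ℝ)) ξ := by
    have h1 : ∀ᵐ ξ ∂(volume.restrict (cube n)), ‖f' ξ‖ₑ ≤ N := by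
      rw [← hN', eLpNorm_exponent_top]
      exact ae_le_eLpNormEssSup
    rw [ae_restrict_iff' (cube_meas n)] at h1
    filter_upwards [h1] with ξ hξ
    by_cases hc : ξ ∈ cube n
    · rw [hφ, indicator_of_mem hc, indicator_of_mem hc, norm_mul, norm_inv, Complex.norm_real,
        Real.norm_of_nonneg hM0.le, inv_mul_le_iff₀ hM0, mul_one]
      have h2 := hξ hc
      rw [hMN, ← ofReal_norm, ENNReal.ofReal_le_ofReal_iff hM0.le] at h2
      exact h2
    · rw [hφ, indicator_of_notMem hc, indicator_of_notMem hc, norm_zero]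
  have hind : Integrable ((cube n).indicator (fun _ => (1 : ℝ))) := by
    rw [integrable_indicator_iff (cube_meas n)]
    exact integrableOn_const (cube_vol n)
  have hφi : Integrable φ := hind.mono' hφm.aestronglyMeasurable hbd
  have hφG : ∀ᵐ ξ, ‖φ ξ‖ ≤ Gs n ξ := by
    filter_upwards [hbd] with ξ hξ
    refine hξ.trans ?_
    by_cases hc : ξ ∈ cube n
    · rw [indicator_of_mem hc]
      exact Gs_cube ξ hc
    · rw [indicator_of_notMem hc]
      exact Gs_nonneg ξ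
  have hExt : ∀ x, ext f x = (M : ℂ) * Pool.Agent.R412.RT.Ex φ x := by
    intro x
    have h1 : Pool.Agent.R412.RT.Ex φ x = (M : ℂ)⁻¹ * ext f x := by
      rw [hext, ext_eq]
      unfold Pool.Agent.R412.RT.Ex
      rw [← integral_const_mul]
      refine integral_congr_ae (Filter.Eventually.of_forall fun ξ => ?_)
      simp only [hφ]
      by_cases hc : ξ ∈ cube n
      · rw [indicator_of_mem hc, indicator_of_mem hc]; ring
      · rw [indicator_of_notMem hc, indicator_of_notMem hc]; ring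
    rw [h1, ← mul_assoc, mul_inv_cancel₀ (by exact_mod_cast hM0.ne'), one_mul]
  have hl : ∀ x ∈ B, ENNReal.ofReal ((lam / M) ^ 2) ≤ ‖Pool.Agent.R412.RT.Ex φ x‖ₑ ^ 2 := by
    intro x hx
    have h1 := hlev x hx
    rw [hExt x, norm_mul, Complex.norm_real, Real.norm_of_nonneg hM0.le] at h1
    have h2 : lam / M ≤ ‖Pool.Agent.R412.RT.Ex φ x‖ := by
      rw [div_le_iff₀ hM0, mul_comm]; exact h1
    rw [← ofReal_norm, ← ENNReal.ofReal_pow (norm_nonneg _)]
    exact ENNReal.ofReal_le_ofReal (pow_le_pow_left₀ (by positivity) h2 2)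
  have hmain := energy' A B hA hB hAf hBf φ hφi hφG _ hl
  rw [← hen, ← hKd] at hmain
  have hlm : ENNReal.ofReal lam ^ 4 = N ^ 4 * ENNReal.ofReal ((lam / M) ^ 2) ^ 2 := by
    rw [hMN, ← ENNReal.ofReal_pow hlam, ← ENNReal.ofReal_pow hM0.le,
      ← ENNReal.ofReal_pow (by positivity), ← ENNReal.ofReal_mul (by positivity)]
    congr 1
    field_simp
  calc ENNReal.ofReal lam ^ 4 * addEnergy A B ^ (1 + 1 / ((n : ℝ) + 1))
      = N ^ 4 * (ENNReal.ofReal ((lam / M) ^ 2) ^ 2 *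
          addEnergy A B ^ (1 + 1 / ((n : ℝ) + 1))) := by rw [hlm]; ring
    _ ≤ N ^ 4 * (K * (volume A ^ (1 + 3 / ((n : ℝ) + 1)) * volume B ^ (2 / ((n : ℝ) + 1)))) :=
        mul_le_mul' le_rfl hmain
    _ ≤ N ^ 4 * ((K + 1) * (volume A ^ (1 + 3 / ((n : ℝ) + 1)) *
          volume B ^ (2 / ((n : ℝ) + 1)))) := by
        gcongr
        exact le_self_add
    _ = _ := by ring

/-- **Superlevel sets of the extension operator and additive energy.** Let `n ≥ 1`, `d = n + 1`.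
There is `C` such that for all `f ∈ L^∞([-1,1]^n)`, all `λ ≥ 0` and all measurable
`B ⊆ {x : λ ≤ |E f(x)|}`:

* for every measurable set `A`, `λ⁴ E(A,B)^(1 + 1/d) ≤ C |A|^(1 + 3/d) |B|^(2/d) ‖f‖_∞⁴`;
* if `|B| < ∞` and `E(B,B) ≥ δ |B|³`, then `λ⁴ δ^(1 + 1/d) |B|^(2 - 2/d) ≤ C ‖f‖_∞⁴`, that is
  `|B| ≤ C' δ^(-(d+1)/(2(d-1))) (‖f‖_∞/λ)^(2d/(d-1))`. -/
theorem result (n : ℕ) (hn : 1 ≤ n) :
    ∃ C : ℝ≥0, ∀ (f : EuclideanSpace ℝ (Fin n) → ℂ) (lam : ℝ)
      (B : Set (EuclideanSpace ℝ (Fin (n + 1)))),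
      MemLp f ∞ (volume.restrict (cube n)) → 0 ≤ lam → MeasurableSet B →
      (∀ x ∈ B, lam ≤ ‖ext f x‖) →
      (∀ A : Set (EuclideanSpace ℝ (Fin (n + 1))), MeasurableSet A →
        ENNReal.ofReal lam ^ 4 * addEnergy A B ^ (1 + 1 / ((n : ℝ) + 1)) ≤
          C * volume A ^ (1 + 3 / ((n : ℝ) + 1)) * volume B ^ (2 / ((n : ℝ) + 1)) *
            eLpNorm f ∞ (volume.restrict (cube n)) ^ 4) ∧
      (∀ δ : ℝ≥0, volume B ≠ ∞ → δ * volume B ^ 3 ≤ addEnergy B B →
        ENNReal.ofReal lam ^ 4 * (δ : ℝ≥0∞) ^ (1 + 1 / ((n : ℝ) + 1)) *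
            volume B ^ (2 - 2 / ((n : ℝ) + 1)) ≤
          C * eLpNorm f ∞ (volume.restrict (cube n)) ^ 4) := by
  obtain ⟨C, hC⟩ := main n
  refine ⟨C, ?_⟩
  intro f lam B hf hlam hB hlev
  refine ⟨fun A hA => hC f lam A B hf hlam hA hB hlev, ?_⟩
  intro δ hBf hδ
  set N : ℝ := (n : ℝ) + 1 with hN
  have hn0 : (1 : ℝ) ≤ n := by exact_mod_cast hn
  have hN2 : 2 ≤ N := by rw [hN]; linarith
  have hN0 : 0 < N := by linarith
  have h22 : 0 < 2 - 2 / N := by
    have : 2 / N ≤ 1 := by rw [div_le_one hN0]; exact hN2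
    linarith
  rcases eq_or_ne (volume B) 0 with h0 | h0
  · rw [h0, ENNReal.zero_rpow_of_pos h22, mul_zero]
    exact zero_le
  have h1 := hC f lam B B hf hlam hB hB hlev
  set b : ℝ≥0∞ := volume B with hb
  have hX0 : b ^ (1 + 5 / N) ≠ 0 := by
    rw [Ne, ENNReal.rpow_eq_zero_iff]
    push Not
    exact ⟨fun h => absurd h h0, fun h => absurd h hBf⟩
  have hXt : b ^ (1 + 5 / N) ≠ ∞ := ENNReal.rpow_ne_top_of_nonneg (by positivity) hBf
  rw [← ENNReal.mul_le_mul_iff_left hX0 hXt]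
  have e1 : b ^ (2 - 2 / N) * b ^ (1 + 5 / N) = (b ^ 3) ^ (1 + 1 / N) := by
    rw [← ENNReal.rpow_add _ _ h0 hBf, ← ENNReal.rpow_natCast, ← ENNReal.rpow_mul]
    congr 1
    push_cast
    field_simp
    ring
  have e2 : b ^ (1 + 3 / N) * b ^ (2 / N) = b ^ (1 + 5 / N) := by
    rw [← ENNReal.rpow_add _ _ h0 hBf]
    congr 1
    ring
  calc ENNReal.ofReal lam ^ 4 * (δ : ℝ≥0∞) ^ (1 + 1 / N) * b ^ (2 - 2 / N) * b ^ (1 + 5 / N)
      = ENNReal.ofReal lam ^ 4 * ((δ : ℝ≥0∞) ^ (1 + 1 / N) * (b ^ 3) ^ (1 + 1 / N)) := by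
        rw [mul_assoc, e1]; ring
    _ = ENNReal.ofReal lam ^ 4 * (δ * b ^ 3) ^ (1 + 1 / N) := by
        rw [ENNReal.mul_rpow_of_nonneg _ _ (by positivity)]
    _ ≤ ENNReal.ofReal lam ^ 4 * addEnergy B B ^ (1 + 1 / N) :=
        mul_le_mul' le_rfl (ENNReal.rpow_le_rpow hδ (by positivity))
    _ ≤ _ := h1
    _ = C * eLpNorm f ∞ (volume.restrict (cube n)) ^ 4 * (b ^ (1 + 3 / N) * b ^ (2 / N)) := by
        ring
    _ = _ := by rw [e2]

end Pool.Agent.Results.MP_b7167f_an.AdditiveEnergy
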