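import Mathlib
import Pool.Agent.N248.RC.Eqv
set_option autoImplicit false

/-!
# The restriction conjecture for the paraboloid on random sets of caps

Let `d = n + 1 ≥ 2` and let `E` be the extension operator of the truncated paraboloid in `ℝ^d`.
For a set `S` of frequencies let `‖E‖_{S,p,R}` be the norm of `E` from `L^∞(S)` to `L^p(B_R)`. The
restriction conjecture is equivalent to `‖E‖_{[-1,1]^n,p,R} ≤ C_ε R^ε` at the critical exponent
`p = 2d/(d-1)` (the removal of `R^ε` is a theorem of Tao, not used here).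

We show that the norm for the union `S` of a typical set of `k` among `N` given disjoint cells of
frequencies is, up to `(log R)²`, the larger of the proportion `k/N` of the full norm and of the
bound which square root cancellation would give, for all `p ≥ 2` and all functions on `S` at the
same time; both terms are necessary for the caps of diameter `1/R`. It follows that

* for all but a proportion `R^(-A)` of the sets of caps of density `τ ≤ R^(-(d-1)/(4d))` one has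
  `‖Ef‖_{L^(2d/(d-1))(B_R)} ≤ C (log R)² ‖f‖_∞` for all functions `f` supported on these caps, and
  there is square root cancellation (norm at most `C (log R)² τ^(1/2)`) if `τ ≤ R^(-(d-1)/(2d))`;
* the bound `R^(σ/2 + ε)` for the full operator is equivalent to square root cancellation on
  average over the sets of caps of density `R^(-σ)`. In particular the (local) restriction
  conjecture is equivalent to square root cancellation at every density `R^(-σ)`, `σ > 0`.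

The proof combines duality, the sampling method of Maurey for the transforms of measures, a union
bound over all samples, concentration for sums over random sets, and a level set argument.
-/

namespace Pool.Agent.Results.MP_b7167f_an.RandomCaps

open MeasureTheory Set Complex
open scoped ENNReal NNReal RealInnerProductSpace

/-- The closed cube `[-1,1]^n`. -/
def cube (n : ℕ) : Set (EuclideanSpace ℝ (Fin n)) := {ξ | ∀ j, |ξ j| ≤ 1}

/-- The extension operator of the truncated paraboloid in `ℝ^(n+1)`: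
`Ef(x) = ∫_{[-1,1]^n} f(ξ) exp(2πi(∑_{j<n} ξ_j x_j + |ξ|² x_n)) dξ`. -/
noncomputable def ext {n : ℕ} (f : EuclideanSpace ℝ (Fin n) → ℂ)
    (x : EuclideanSpace ℝ (Fin (n + 1))) : ℂ :=
  ∫ ξ in cube n, f ξ *
    cexp (2 * Real.pi * I * ((∑ j, ξ j * x j.castSucc + (∑ j, ξ j ^ 2) * x (Fin.last n) : ℝ) : ℂ))

/-- The norm of `E` from `L^∞(S)` to `L^p(B_R)`: the supremum of `‖Ef‖_{L^p(B_R)}` over the
measurable functions `f` with `|f| ≤ 1` which vanish off `S`. -/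
noncomputable def opNorm {n : ℕ} (S : Set (EuclideanSpace ℝ (Fin n))) (p R : ℝ) : ℝ≥0∞ :=
  ⨆ (f : EuclideanSpace ℝ (Fin n) → ℂ)
    (_ : Measurable f ∧ (∀ ξ, ‖f ξ‖ ≤ 1) ∧ ∀ ξ, ξ ∉ S → f ξ = 0),
    eLpNorm (ext f) (ENNReal.ofReal p) (volume.restrict (Metric.ball 0 R))

/-- The cap with index `j`: a cube of side `1/R`. The `(2R)^n` caps tile `[-1,1)^n`. -/
def cap {n : ℕ} (R : ℕ) (j : Fin n → Fin (2 * R)) : Set (EuclideanSpace ℝ (Fin n)) :=
  {ξ | ∀ i, ((j i : ℕ) : ℝ) ≤ R * (ξ i + 1) ∧ R * (ξ i + 1) < (j i : ℕ) + 1}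

/-- The average of the norms `‖E‖_{S,p,R}` over all the unions `S` of `k` of the `(2R)^n` caps. -/
noncomputable def average (n : ℕ) (p : ℝ) (R k : ℕ) : ℝ≥0∞ :=
  (∑ I ∈ Finset.powersetCard k (Finset.univ : Finset (Fin n → Fin (2 * R))),
    opNorm (⋃ j ∈ I, cap R j) p R) / (((2 * R) ^ n).choose k : ℕ)

open Pool.Agent.N248.RC Pool.Agent.N248.RR in
lemma ext_eq {n : ℕ} (f : EuclideanSpace ℝ (Fin n) → ℂ) :
    ext f = Eo (mc n) (ker (Pa n)) f := by
  ext x
  have hc : cube n = cub n := rfl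
  unfold ext Eo mc
  rw [hc]
  refine setIntegral_congr_fun (cub_meas n) fun ξ hξ => ?_
  simp only
  congr 1
  unfold ker Pa ex
  rw [indicator_of_mem hξ]
  congr 1
  unfold sPhi
  rw [inner_smul_left, Phi_inner]
  simp only [conj_trivial]
  have e : (∑ j, (x j.castSucc * ξ j + x (Fin.last n) * ξ j ^ 2) : ℝ) =
      ∑ j, ξ j * x j.castSucc + (∑ j, ξ j ^ 2) * x (Fin.last n) := by
    rw [Finset.sum_add_distrib, Finset.sum_mul]
    congr 1
    · exact Finset.sum_congr rfl fun j _ => mul_comm _ _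
    · exact Finset.sum_congr rfl fun j _ => mul_comm _ _
  rw [e]
  push_cast
  ring

open Pool.Agent.N248.RC in
lemma opNorm_eq {n : ℕ} (S : Set (EuclideanSpace ℝ (Fin n))) (p R : ℝ) :
    opNorm S p R = opN (mc n) (Pa n) S p R := by
  unfold opNorm opN
  simp_rw [ext_eq]
  rfl

open Pool.Agent.N248.RC Pool.Agent.N248.RR in
lemma full_eq {n : ℕ} (p R : ℝ) :
    opNorm (cube n) p R = opN (mc n) (Pa n) Set.univ p R := by
  rw [opNorm_eq]
  refine le_antisymm (opN_mono (mc n) (Pa n) _ _ (Set.subset_univ _) p R) ?_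
  refine opN_le (mc n) (Pa n) Set.univ p R _ fun f hf => ?_
  have hc : cube n = cub n := rfl
  rw [hc]
  have e : Eo (mc n) (ker (Pa n)) f = Eo (mc n) (ker (Pa n)) ((cub n).indicator f) := by
    ext x
    unfold Eo mc
    refine setIntegral_congr_fun (cub_meas n) fun ξ hξ => ?_
    show f ξ * _ = (cub n).indicator f ξ * _
    rw [indicator_of_mem hξ]
  rw [e]
  refine le_opN (mc n) (Pa n) (cub n) p R _ ⟨hf.1.indicator (cub_meas n), fun ξ => ?_,
    fun ξ hξ => indicator_of_notMem hξ _⟩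
  by_cases hξ : ξ ∈ cub n
  · rw [indicator_of_mem hξ]; exact hf.2.1 ξ
  · rw [indicator_of_notMem hξ]; simp

open Pool.Agent.N248.RC in
lemma part_one (n : ℕ) (A B : ℝ) (hA : 0 ≤ A) (hB : 0 ≤ B) : ∃ C : ℝ, ∀ R : ℝ, 2 ≤ R →
    ∀ κ : ℝ, R ^ (-B) ≤ κ → ∀ (ι : Type) (J : Finset ι) (θ : ι → Set (EuclideanSpace ℝ (Fin n))),
      (J.card : ℝ) ≤ R ^ B →
      (∀ i ∈ J, MeasurableSet (θ i) ∧ volume (θ i) ≤ ENNReal.ofReal κ) →
      (J : Set ι).PairwiseDisjoint θ → ∀ k : ℕ, 1 ≤ k → k ≤ J.card →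
      ({I : Finset ι | I ⊆ J ∧ I.card = k ∧ ¬ ∀ p : ℝ, 2 ≤ p →
        opNorm (⋃ i ∈ I, θ i) p R ≤ ENNReal.ofReal (C * Real.log R ^ 2) *
          (ENNReal.ofReal (k / J.card) * opNorm (cube n) p R +
            ENNReal.ofReal (Real.sqrt k * κ ^ (1 - 1 / p) * R ^ (1 / p)))}.ncard : ℝ) ≤
        R ^ (-A) * (J.card.choose k : ℕ) := by
  classical
  obtain ⟨C, hC0, hC⟩ := para_gen (n := n) A B hA hB
  refine ⟨C, ?_⟩
  intro R hR κ hκ ι J θ hJ hθ hd k hk hkJ
  have hκ0 : 0 < κ := (Real.rpow_pos_of_pos (by linarith) _).trans_le hκ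
  have h := hC R hR κ hκ ι J k θ hk hkJ hJ (fun i hi => (hθ i hi).1) hd (fun i hi => by
    have h1 : (mc n) (θ i) ≤ ENNReal.ofReal κ :=
      (Measure.restrict_apply_le _ _).trans (hθ i hi).2
    exact ENNReal.toReal_le_of_le_ofReal hκ0.le h1)
  refine le_trans ?_ h
  refine Nat.cast_le.2 ?_
  refine le_trans (Set.ncard_le_ncard (fun I hI => ?_) (Finset.finite_toSet _))
    (Set.ncard_coe_finset _).le
  rw [Finset.mem_coe, Finset.mem_filter, Finset.mem_powersetCard]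
  refine ⟨⟨hI.1, hI.2.1⟩, fun hgood => hI.2.2 fun p hp => ?_⟩
  rw [full_eq, opNorm_eq, mul_assoc (Real.sqrt k)]
  exact GG_full C R κ J.card k hC0 (Nat.cast_nonneg _) (Nat.cast_nonneg _) hκ0.le hR _ hgood p hp

open Pool.Agent.N248.RC in
lemma part_three (n : ℕ) (R k : ℕ) (hR : 1 ≤ R) (hk : 1 ≤ k) (hkN : k ≤ (2 * R) ^ n) (p : ℝ)
    (hp : 2 ≤ p) :
    ENNReal.ofReal (k / (2 * R) ^ n) * opNorm (cube n) p R ≤
      average n p R k := by
  have h := para_avg (n := n) R hR k hk hkN p hp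
  unfold average
  rw [full_eq]
  simp_rw [opNorm_eq]
  set N : ℕ := (2 * R) ^ n with hN
  set M : ℕ := N.choose k with hM
  have hN0 : 0 < N := by rw [hN]; positivity
  have hM0 : 0 < M := Nat.choose_pos hkN
  have hM1 : (M : ℝ≥0∞) ≠ 0 := by exact_mod_cast hM0.ne'
  have hN1 : (N : ℝ≥0∞) ≠ 0 := by exact_mod_cast hN0.ne'
  have e : ENNReal.ofReal ((k : ℝ) / (2 * R) ^ n) = (k : ℝ≥0∞) / N := by
    have e1 : ((2 * R : ℝ)) ^ n = (N : ℝ) := by rw [hN]; push_cast; ring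
    rw [e1, ENNReal.ofReal_div_of_pos (by exact_mod_cast hN0), ENNReal.ofReal_natCast,
      ENNReal.ofReal_natCast]
  rw [e, ENNReal.le_div_iff_mul_le (Or.inl hM1) (Or.inl (ENNReal.natCast_ne_top _))]
  rw [div_eq_mul_inv, mul_assoc, mul_assoc]
  calc (k : ℝ≥0∞) * ((N : ℝ≥0∞)⁻¹ * (opN (mc n) (Pa n) Set.univ p R * M)) =
      (N : ℝ≥0∞)⁻¹ * ((k : ℝ≥0∞) * M * opN (mc n) (Pa n) Set.univ p R) := by ring
    _ ≤ (N : ℝ≥0∞)⁻¹ * (N * ∑ I ∈ Finset.powersetCard k
        (Finset.univ : Finset (Fin n → Fin (2 * R))), opN (mc n) (Pa n) (un (cell R) I) p R) :=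
        mul_le_mul' le_rfl h
    _ = ∑ I ∈ Finset.powersetCard k
        (Finset.univ : Finset (Fin n → Fin (2 * R))), opN (mc n) (Pa n) (un (cell R) I) p R := by
        rw [← mul_assoc, ENNReal.inv_mul_cancel hN1 (ENNReal.natCast_ne_top _), one_mul]
    _ = _ := rfl

open Pool.Agent.N248.RC in
lemma average_iff (n : ℕ) (p : ℝ) (R k : ℕ) (hkN : k ≤ (2 * R) ^ n) (X : ℝ≥0∞) :
    average n p R k ≤ X ↔
      ∑ I ∈ Finset.powersetCard k (Finset.univ : Finset (Fin n → Fin (2 * R))),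
        opN (mc n) (Pa n) (un (cell R) I) p R ≤ ((((2 * R) ^ n).choose k : ℕ) : ℝ≥0∞) * X := by
  unfold average
  simp_rw [opNorm_eq]
  have hM0 : 0 < ((2 * R) ^ n).choose k := Nat.choose_pos hkN
  have hM1 : ((((2 * R) ^ n).choose k : ℕ) : ℝ≥0∞) ≠ 0 := by exact_mod_cast hM0.ne'
  rw [ENNReal.div_le_iff hM1 (ENNReal.natCast_ne_top _), mul_comm X]
  rfl

open Pool.Agent.N248.RC in
/-- **The restriction conjecture for the paraboloid on random sets of caps.** Let `d = n + 1`.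

(1) For all `A, B` there is `C` such that for `R ≥ 2` and any family of at most `R^B` pairwise
disjoint measurable cells `θ_i`, `i ∈ J`, of measure at most `κ`, where `κ ≥ R^(-B)`: for all but a
proportion `R^(-A)` of the sets `I` of `k` cells, with `S = ⋃_{i ∈ I} θ_i`, and for all `p ≥ 2`,
`‖E‖_{S,p,R} ≤ C (log R)² ((k/N) ‖E‖_{[-1,1]^n,p,R} + k^(1/2) κ^(1-1/p) R^(1/p))`, where `N = |J|`.

(2) Conversely, for the unions `S` of any `k` caps, `‖E‖_{S,p,R} ≥ c k^(1/2) R^((n+1)/p - n)`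
(the second term of (1) for `κ = R^(-n)`), and

(3) the average of `‖E‖_{S,p,R}` over all sets of `k` among the `N = (2R)^n` caps is at least
`(k/N) ‖E‖_{[-1,1]^n,p,R}`.

(4) For all but a proportion `R^(-A)` of the sets of `k = τ (2R)^n` caps the norm at the critical
exponent `p = 2(n+1)/n` is at most `C (log R)² (τ R^(n/(4(n+1))) + τ^(1/2))`.

(5) For `0 ≤ σ ≤ n` the bound `‖E‖_{[-1,1]^n,p,R} ≤ C_ε R^(σ/2+ε)` at `p = 2(n+1)/n` holds if and
only if the average of `‖E‖_{S,p,R}` over all sets of `⌈R^(n-σ)⌉` caps is at most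
`C_ε R^(-σ/2+ε)`. -/
theorem result (n : ℕ) (hn : 1 ≤ n) :
    (∀ A B : ℝ, 0 ≤ A → 0 ≤ B → ∃ C : ℝ, ∀ R : ℝ, 2 ≤ R → ∀ κ : ℝ, R ^ (-B) ≤ κ →
      ∀ (ι : Type) (J : Finset ι) (θ : ι → Set (EuclideanSpace ℝ (Fin n))),
      (J.card : ℝ) ≤ R ^ B →
      (∀ i ∈ J, MeasurableSet (θ i) ∧ volume (θ i) ≤ ENNReal.ofReal κ) →
      (J : Set ι).PairwiseDisjoint θ → ∀ k : ℕ, 1 ≤ k → k ≤ J.card →
      ({I : Finset ι | I ⊆ J ∧ I.card = k ∧ ¬ ∀ p : ℝ, 2 ≤ p →
        opNorm (⋃ i ∈ I, θ i) p R ≤ ENNReal.ofReal (C * Real.log R ^ 2) *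
          (ENNReal.ofReal (k / J.card) * opNorm (cube n) p R +
            ENNReal.ofReal (Real.sqrt k * κ ^ (1 - 1 / p) * R ^ (1 / p)))}.ncard : ℝ) ≤
        R ^ (-A) * (J.card.choose k : ℕ)) ∧
    (∃ c : ℝ, 0 < c ∧ ∀ R : ℕ, 1 ≤ R → ∀ I : Finset (Fin n → Fin (2 * R)), ∀ p : ℝ, 2 ≤ p →
      ENNReal.ofReal (c * (Real.sqrt I.card * (R : ℝ) ^ (((n : ℝ) + 1) / p - n))) ≤
        opNorm (⋃ j ∈ I, cap R j) p R) ∧
    (∀ R k : ℕ, 1 ≤ R → 1 ≤ k → k ≤ (2 * R) ^ n → ∀ p : ℝ, 2 ≤ p →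
      ENNReal.ofReal (k / (2 * R) ^ n) * opNorm (cube n) p R ≤
        average n p R k) ∧
    (∀ A : ℝ, 0 ≤ A → ∃ C : ℝ, ∀ R k : ℕ, 2 ≤ R → 1 ≤ k → k ≤ (2 * R) ^ n →
      ({I : Finset (Fin n → Fin (2 * R)) | I.card = k ∧
        ¬ opNorm (⋃ j ∈ I, cap R j) (2 * (n + 1) / n) R ≤ ENNReal.ofReal (C * Real.log R ^ 2 *
          ((k : ℝ) / (2 * R) ^ n * (R : ℝ) ^ ((n : ℝ) / (4 * (n + 1))) +
            Real.sqrt ((k : ℝ) / (2 * R) ^ n)))}.ncard : ℝ) ≤
        (R : ℝ) ^ (-A) * (((2 * R) ^ n).choose k : ℕ)) ∧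
    (∀ σ : ℝ, 0 ≤ σ → σ ≤ n →
      ((∀ ε : ℝ, 0 < ε → ∃ C : ℝ, ∀ R : ℕ, 2 ≤ R →
        opNorm (cube n) (2 * (n + 1) / n) R ≤
          ENNReal.ofReal (C * (R : ℝ) ^ (σ / 2 + ε))) ↔
      ∀ ε : ℝ, 0 < ε → ∃ C : ℝ, ∀ R : ℕ, 2 ≤ R →
        average n (2 * (n + 1) / n) R ⌈(R : ℝ) ^ ((n : ℝ) - σ)⌉₊ ≤
          ENNReal.ofReal (C * (R : ℝ) ^ (ε - σ / 2)))) := by
  classical
  refine ⟨fun A B hA hB => part_one n A B hA hB, ?_, fun R k hR hk hkN p hp =>
    part_three n R k hR hk hkN p hp, ?_, ?_⟩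
  · obtain ⟨c, hc0, hc⟩ := para_sqrt n
    refine ⟨c, hc0, fun R hR I p hp => ?_⟩
    rw [opNorm_eq]
    exact hc R hR I p hp
  · intro A hA
    obtain ⟨C, hC0, hC⟩ := para_crit hn A hA
    refine ⟨C, fun R k hR hk hkN => ?_⟩
    refine le_trans ?_ (hC R hR k hk hkN)
    refine Nat.cast_le.2 ?_
    refine le_trans (Set.ncard_le_ncard (fun I hI => ?_) (Finset.finite_toSet _))
      (Set.ncard_coe_finset _).le
    rw [Finset.mem_coe, Finset.mem_filter, Finset.mem_powersetCard]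
    refine ⟨⟨Finset.subset_univ _, hI.1⟩, fun hgood => hI.2 ?_⟩
    rw [opNorm_eq]
    exact hgood
  · intro σ hσ hσn
    simp_rw [full_eq]
    constructor
    · intro h ε hε
      obtain ⟨C, hC⟩ := fwd hn σ hσ hσn h ε hε
      exact ⟨C, fun R hR =>
        (average_iff n _ R (nc n σ R) (nc_facts σ hσ hσn R (by omega)).2.1 _).2 (hC R hR)⟩
    · intro h ε hε
      obtain ⟨C, hC⟩ := h ε hε
      exact ⟨2 ^ n * max C 0, bwd hn σ hσ hσn ε C fun R hR =>
        (average_iff n _ R (nc n σ R) (nc_facts σ hσ hσn R (by omega)).2.1 _).1 (hC R hR)⟩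

end Pool.Agent.Results.MP_b7167f_an.RandomCaps
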