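import Mathlib
import Pool.Agent.N248.RL.G
import Pool.Agent.N248.RL.X
set_option autoImplicit false

/-!
# The restriction conjecture for the paraboloid and random regions

Let `d = n + 1 ≥ 2` and let `E` be the extension operator of the truncated paraboloid in `ℝ^d`. Choose
the lattice unit cubes of `ℝ^d` at random, independently, the cube `j + [0,1)^d` with a probability
comparable to `(1 + |j|)^(-a)`, `0 < a ≤ 1`, and let `Ω` be the union of the chosen cubes: a random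
region of density `|x|^(-a)`, of infinite volume.

**Theorem.** Let `s ≥ 2` and `p > 2`. The following are equivalent:

(i) the local estimate `∫_{B_R} |Ef|^p ≤ C_ε R^ε ‖f‖_s^p` for all `ε > 0`, `R ≥ 1`;

(ii) for every `0 < a ≤ 1` and almost every random region `Ω` of density `|x|^(-a)`, `E` is bounded
from `L^s([-1,1]^n)` to `L^q(Ω)` for all `q > p - a (p - 2)`;

(iii) for arbitrarily small `a > 0` there are random regions of density `|x|^(-a)` for which `E` is
almost surely bounded from `L^s([-1,1]^n)` to `L^p(Ω)`.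

For `s = ∞`, `p = 2d/(d-1)` the statement (i) is the local form of the restriction conjecture. It is
thus equivalent to the global estimates for almost every region of density `|x|^(-a)`, for all
`0 < a ≤ 1`, with the exponents `q > (2d - 2a)/(d-1)`, and this range is sharp. The estimates on `Ω` do
not lose a power of `R`, the gain `a (p - 2)` in the exponent comes from the randomness. From `L²`
nothing has to be assumed: for almost every `Ω` of density `|x|^(-a)` the operator is bounded from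
`L²([-1,1]^n)` to `L^q(Ω)` for all `q > (2(d+1) - 4a)/(d-1)`, and unbounded for all smaller `q`.
For `a = 1` this is the range `q > 2` of (ii).
-/

namespace Pool.Agent.Results.MP_b7167f_an.RandomRegions

open MeasureTheory ProbabilityTheory Set Complex
open scoped ENNReal NNReal RealInnerProductSpace

/-- The closed cube `[-1,1]^n`. -/
def cube (n : ℕ) : Set (EuclideanSpace ℝ (Fin n)) := {ξ | ∀ j, |ξ j| ≤ 1}

/-- The extension operator of the truncated paraboloid in `ℝ^(n+1)`: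
`Ef(x) = ∫_{[-1,1]^n} f(ξ) exp(2πi(∑_{j<n} ξ_j x_j + |ξ|² x_n)) dξ`. -/
noncomputable def ext {n : ℕ} (f : EuclideanSpace ℝ (Fin n) → ℂ)
    (x : EuclideanSpace ℝ (Fin (n + 1))) : ℂ :=
  ∫ ξ in cube n, f ξ *
    cexp (2 * Real.pi * I * ((∑ j, ξ j * x j.castSucc + (∑ j, ξ j ^ 2) * x (Fin.last n) : ℝ) : ℂ))

/-- the unit cube `j + [0,1)^d` -/
def unitCube {d : ℕ} (j : Fin d → ℤ) : Set (EuclideanSpace ℝ (Fin d)) :=
  {x | ∀ i, (j i : ℝ) ≤ x i ∧ x i < j i + 1}

/-- The independent events `A j` (the cube `j` is chosen) of probability comparable to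
`(1 + |j|)^(-a)`. -/
structure RandomCubes {d : ℕ} {Ω : Type} [MeasurableSpace Ω] (P : Measure Ω)
    (A : (Fin d → ℤ) → Set Ω) (a : ℝ) : Prop where
  meas : ∀ j, MeasurableSet (A j)
  indep : iIndepSet A P
  low : ∃ c : ℝ, 0 < c ∧ ∀ j, ENNReal.ofReal (c * (1 + ‖j‖) ^ (-a)) ≤ P (A j)
  up : ∃ c : ℝ, ∀ j, P (A j) ≤ ENNReal.ofReal (c * (1 + ‖j‖) ^ (-a))

/-- the union of the chosen cubes -/
def region {d : ℕ} {Ω : Type} (A : (Fin d → ℤ) → Set Ω) (ω : Ω) :
    Set (EuclideanSpace ℝ (Fin d)) :=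
  ⋃ j ∈ {j | ω ∈ A j}, unitCube j

/-- `E` is bounded from `L^s([-1,1]^n)` to `L^q(W)`. -/
def Bounded {n : ℕ} (s : ℝ≥0∞) (q : ℝ) (W : Set (EuclideanSpace ℝ (Fin (n + 1)))) : Prop :=
  ∃ C : ℝ≥0, ∀ f : EuclideanSpace ℝ (Fin n) → ℂ, MemLp f s (volume.restrict (cube n)) →
    ∫⁻ x in W, ‖ext f x‖ₑ ^ q ≤ C * eLpNorm f s (volume.restrict (cube n)) ^ q

/-- The local estimate: for all `ε > 0` there is `C` with
`∫_{B_R} |Ef|^p ≤ C R^ε ‖f‖_s^p` for all `R ≥ 1`. -/
def Local (n : ℕ) (s : ℝ≥0∞) (p : ℝ) : Prop :=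
  ∀ ε : ℝ, 0 < ε → ∃ C : ℝ, ∀ R : ℝ, 1 ≤ R → ∀ f : EuclideanSpace ℝ (Fin n) → ℂ,
    MemLp f s (volume.restrict (cube n)) → ∫⁻ x in Metric.ball 0 R, ‖ext f x‖ₑ ^ p ≤
      ENNReal.ofReal (C * R ^ ε) * eLpNorm f s (volume.restrict (cube n)) ^ p

open Pool.Agent.N248.RR

lemma ext_eq {n : ℕ} (f : EuclideanSpace ℝ (Fin n) → ℂ) (x : EuclideanSpace ℝ (Fin (n + 1))) :
    ext f x = ∫ ξ in cub n, ex ((2 * Real.pi) * ⟪Pool.Agent.R412.RT.Phi ξ, x⟫) * f ξ := by
  have hc : cube n = cub n := rfl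
  unfold ext
  rw [hc]
  refine setIntegral_congr_fun (cub_meas n) fun ξ hξ => ?_
  simp only
  rw [mul_comm]
  congr 1
  unfold ex
  congr 1
  rw [Phi_inner]
  have e : (∑ j, (x j.castSucc * ξ j + x (Fin.last n) * ξ j ^ 2) : ℝ) =
      ∑ j, ξ j * x j.castSucc + (∑ j, ξ j ^ 2) * x (Fin.last n) := by
    rw [Finset.sum_add_distrib, Finset.sum_mul]
    congr 1
    · exact Finset.sum_congr rfl fun j _ => mul_comm _ _
    · exact Finset.sum_congr rfl fun j _ => mul_comm _ _
  rw [e]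
  push_cast
  ring

lemma bdd_iff {n : ℕ} (s : ℝ≥0∞) (q : ℝ) (W : Set (EuclideanSpace ℝ (Fin (n + 1)))) :
    Bounded s q W ↔ Bdd (2 * Real.pi) (cub n) s q W := by
  unfold Bounded Bdd
  simp_rw [ext_eq]
  rfl

open Pool.Agent.N248.RL in
lemma local_iff (n : ℕ) (s : ℝ≥0∞) (p : ℝ) :
    Local n s p ↔ LocBdd (2 * Real.pi) (cub n) s p := by
  have hc : cube n = cub n := rfl
  unfold Local LocBdd
  simp_rw [ext_eq]
  rw [hc]
  constructor
  · intro h ε hε
    obtain ⟨C, hC⟩ := h ε hε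
    refine ⟨max C 0, le_max_right _ _, fun R hR f hf => (hC R hR f hf).trans
      (mul_le_mul' (ENNReal.ofReal_le_ofReal ?_) le_rfl)⟩
    exact mul_le_mul_of_nonneg_right (le_max_left _ _) (Real.rpow_nonneg (by linarith) _)
  · intro h ε hε
    obtain ⟨C, hC0, hC⟩ := h ε hε
    exact ⟨C, hC⟩

lemma cubes_iff {d : ℕ} {Ω : Type} [MeasurableSpace Ω] {P : Measure Ω}
    {A : (Fin d → ℤ) → Set Ω} {a : ℝ} : RandomCubes P A a ↔ RC P A a :=
  ⟨fun h => ⟨h.meas, h.indep, h.low, h.up⟩, fun h => ⟨h.meas, h.indep, h.low, h.up⟩⟩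

/-- **Theorem.** Let `n ≥ 1`, `d = n + 1`.

(1) Let `2 ≤ s ≤ ∞` and `p > 2`. If `E` is bounded from `L^s` to `L^q(ℝ^d)` for all `q > p`, then the
local estimate `∫_{B_R} |Ef|^p ≤ C_ε R^ε ‖f‖_s^p` holds. The following are equivalent: this local
estimate; for every `0 < a ≤ 1` and every random choice of unit cubes with
probabilities comparable to `(1 + |j|)^(-a)`, almost surely `E` is bounded from `L^s` to `L^q` of the
random region for all `q > p - a (p - 2)`; for arbitrarily small `a` there is such a random choice for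
which `E` is almost surely bounded from `L^s` to `L^p` of the random region.

(2) For every `0 < a ≤ 1` and every random choice of unit cubes with probabilities comparable to
`(1 + |j|)^(-a)`, almost surely: `E` is bounded from `L^s`, `s ≥ 2`, to `L^q` of the random region for
all `q > (2(n+2) - 4a)/n`; it is not bounded from `L²` for `0 < q < (2(n+2) - 4a)/n`; it is not bounded
from any `L^s` for `0 < q < (2(n+1) - 2a)/n`. -/
theorem result (n : ℕ) (hn : 1 ≤ n) :
    (∀ (s : ℝ≥0∞) (p : ℝ), 2 ≤ s → 2 < p →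
      ((∀ q, p < q → Bounded (n := n) s q univ) → Local n s p) ∧ List.TFAE [
      Local n s p,
      ∀ a : ℝ, 0 < a → a ≤ 1 → ∀ (Ω : Type) [MeasurableSpace Ω] (P : Measure Ω)
        [IsProbabilityMeasure P] (A : (Fin (n + 1) → ℤ) → Set Ω), RandomCubes P A a →
        ∀ᵐ ω ∂P, ∀ q, p - a * (p - 2) < q → Bounded s q (region A ω),
      ∀ ε : ℝ, 0 < ε → ∃ a : ℝ, 0 < a ∧ a ≤ 1 ∧ a < ε ∧ ∃ (Ω : Type) (_ : MeasurableSpace Ω)
        (P : Measure Ω) (_ : IsProbabilityMeasure P) (A : (Fin (n + 1) → ℤ) → Set Ω),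
        RandomCubes P A a ∧ ∀ᵐ ω ∂P, Bounded s p (region A ω)]) ∧
    ∀ a : ℝ, 0 < a → a ≤ 1 → ∀ (Ω : Type) [MeasurableSpace Ω] (P : Measure Ω)
      [IsProbabilityMeasure P] (A : (Fin (n + 1) → ℤ) → Set Ω), RandomCubes P A a → ∀ᵐ ω ∂P,
      (∀ (s : ℝ≥0∞) (q : ℝ), 2 ≤ s → (2 * (n + 2) - 4 * a) / n < q → Bounded s q (region A ω)) ∧
      (∀ q, 0 < q → q < (2 * (n + 2) - 4 * a) / n → ¬ Bounded 2 q (region A ω)) ∧
      (∀ (s : ℝ≥0∞) (q : ℝ), 0 < q → q < (2 * (n + 1) - 2 * a) / n →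
        ¬ Bounded s q (region A ω)) := by
  have hn0 : (0 : ℝ) < n := by exact_mod_cast hn
  have hpi : (2 * Real.pi) ≠ 0 := by
    have := Real.pi_pos
    positivity
  simp_rw [bdd_iff, local_iff]
  refine ⟨?_, ?_⟩
  · intro s p hs hp
    refine ⟨Pool.Agent.N248.RL.loc_of_glob (2 * Real.pi) s hs p (by linarith), ?_⟩
    tfae_have 1 → 2 := by
      intro h a ha ha1 Ω _ P _ A hA
      exact Pool.Agent.N248.RL.para_loc hn (2 * Real.pi) hpi (cub n) (cub_meas n) Subset.rfl P A a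
        ha ha1 (cubes_iff.1 hA) s hs p hp.le h
    tfae_have 2 → 3 := by
      intro h ε hε
      have ha : 0 < min 1 (ε / 2) := lt_min one_pos (by linarith)
      refine ⟨min 1 (ε / 2), ha, min_le_left _ _, (min_le_right _ _).trans_lt (by linarith), ?_⟩
      obtain ⟨Ω, mΩ, P, hP, A, hA⟩ := Pool.Agent.N248.RL.exists_cubes (n + 1) _ ha
      refine ⟨Ω, mΩ, P, hP, A, cubes_iff.2 hA, ?_⟩
      filter_upwards [h _ ha (min_le_left _ _) Ω P A (cubes_iff.2 hA)] with ω hω
      refine hω p ?_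
      have : 0 < min 1 (ε / 2) * (p - 2) := mul_pos ha (by linarith)
      linarith
    tfae_have 3 → 1 := by
      intro h ε hε
      obtain ⟨a, ha, ha1, haε, Ω, mΩ, P, hP, A, hA, hb⟩ := h ε hε
      obtain ⟨C, hC0, hC⟩ := Pool.Agent.N248.RL.conv (2 * Real.pi) (cub n) Subset.rfl P A a ha
        (cubes_iff.1 hA) s (le_trans (by norm_num) hs) p (by linarith) hb
      refine ⟨C, hC0, fun R hR f hf => (hC R hR f hf).trans (mul_le_mul' ?_ le_rfl)⟩
      refine ENNReal.ofReal_le_ofReal (mul_le_mul_of_nonneg_left ?_ hC0)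
      exact Real.rpow_le_rpow_of_exponent_le hR haε.le
    tfae_finish
  · intro a ha ha1 Ω _ P _ A hA
    have hRC := cubes_iff.1 hA
    have hcap : Pool.Agent.N248.RR.cap (0 : EuclideanSpace ℝ (Fin n)) 1 ⊆ cub n := by
      intro ξ hξ i
      have := hξ i
      simpa using this
    filter_upwards [bdd_two hn (2 * Real.pi) hpi (cub n) (cub_meas n) Subset.rfl P A a ha ha1 hRC,
      not_bdd_two hn (2 * Real.pi) (cub n) (cub_meas n) 0 1 one_pos hcap P A a ha ha1 hRC,
      not_bdd_top hn (2 * Real.pi) hpi (cub n) Subset.rfl 0 1 one_pos hcap P A a ha ha1 hRC]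
      with ω h1 h2 h3
    have e1 : (2 + 4 / (n : ℝ)) - a * (4 / n) = (2 * (n + 2) - 4 * a) / n := by
      field_simp
      ring
    rw [e1] at h1 h2
    refine ⟨fun s q hs hq => h1 s hs q hq, fun q hq0 hq => h2 q hq0 hq,
      fun s q hq0 hq => h3 s q hq0 ?_⟩
    rw [lt_div_iff₀ hn0] at hq
    linarith

end Pool.Agent.Results.MP_b7167f_an.RandomRegions
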