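import Mathlib
import Pool.Agent.N248.RM.F
set_option autoImplicit false

/-!
# The restriction conjecture for the paraboloid tested on random unions of unit cubes

Let `d = n + 1 ≥ 2` and let `E` be the extension operator of the truncated paraboloid in `ℝ^d`. The
restriction conjecture is equivalent to its dual form: for every `ε > 0`

  `∫_B |E f|² ≤ C_ε |B|^(1/d + ε) ‖f‖_∞²`

for all finite unions `B` of lattice unit cubes (`E f` is band limited, so that measurable sets may
be replaced by unions of unit cubes, and conversely).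

We show that the conjecture holds for almost every test set, without loss and with the norm of `f`
in `L²` in place of `L^∞`.

* Let the unit cubes be chosen independently, the cube `Q_j` with probability `p_j`, and let
  `∑ p_j ∫_{Q_j} |E f|² ≤ M ‖f‖_2²` for all `f`. Then outside an event of probability
  `(∑ p_j) exp (-τ)` one has `∫_B |E f|² ≤ C (M + τ) ‖f‖_2²` for all `f` at the same time.
* For every `A` there is `C` such that for all `R ≥ 2` and `k ≤ (2R)^d`, all but a proportion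
  `R^(-A)` of all the unions `B` of `k` unit cubes in `[-R, R)^d` satisfy
  `∫_B |E f|² ≤ C (log R + k / R^(d-1)) ‖f‖_2²` for all `f ∈ L²`. The right-hand side is at most
  `C' (log R + |B|^(1/d)) ‖f‖_∞²`.

The proof is a moment method for random sums of positive operators (trace inequalities of
Golden-Thompson type without the exponential).
-/

namespace Pool.Agent.Results.MP_b7167f_an.RandomTests

open MeasureTheory Set Complex
open scoped ENNReal NNReal RealInnerProductSpace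

/-- The closed cube `[-1,1]^n`. -/
def cube (n : ℕ) : Set (EuclideanSpace ℝ (Fin n)) := {ξ | ∀ j, |ξ j| ≤ 1}

/-- The extension operator of the truncated paraboloid in `ℝ^(n+1)`:
`Ef(x) = ∫_{[-1,1]^n} f(ξ) exp(2πi(∑_{j<n} ξ_j x_j + |ξ|² x_n)) dξ`. -/
noncomputable def ext {n : ℕ} (f : EuclideanSpace ℝ (Fin n) → ℂ)
    (x : EuclideanSpace ℝ (Fin (n + 1))) : ℂ :=
  ∫ ξ in cube n, f ξ *
    cexp (2 * Real.pi * I * ((∑ j, ξ j * x j.castSucc + (∑ j, ξ j ^ 2) * x (Fin.last n) : ℝ) : ℂ))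

/-- The unit cube `j + [0,1)^(n+1)`. -/
def unitCube {n : ℕ} (j : Fin (n + 1) → ℤ) : Set (EuclideanSpace ℝ (Fin (n + 1))) :=
  {x | ∀ i, (j i : ℝ) ≤ x i ∧ x i < j i + 1}

/-- The unit cubes contained in `[-R, R)^(n+1)`. -/
noncomputable def box (n R : ℕ) : Finset (Fin (n + 1) → ℤ) :=
  Fintype.piFinset fun _ => Finset.Ico (-(R : ℤ)) R

/-- The estimate `∫_B |Ef|² ≤ A ‖f‖_2²` for all `f ∈ L²`, for the union `B` of the unit cubes in
`S`. -/
def Test {n : ℕ} (A : ℝ) (S : Finset (Fin (n + 1) → ℤ)) : Prop :=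
  ∀ f : EuclideanSpace ℝ (Fin n) → ℂ, MemLp f 2 (volume.restrict (cube n)) →
    ∫⁻ x in ⋃ j ∈ S, unitCube j, ‖ext f x‖ₑ ^ 2 ≤
      ENNReal.ofReal A * eLpNorm f 2 (volume.restrict (cube n)) ^ 2

open Classical in
/-- The probability that the random subset of `J`, which contains `j ∈ J` with probability `p j`,
independently, has the property `A`. -/
noncomputable def prob {α : Type*} (J : Finset α) (p : α → ℝ) (A : Finset α → Prop) : ℝ :=
  ∑ S ∈ J.powerset, if A S then (∏ j ∈ S, p j) * ∏ j ∈ J \ S, (1 - p j) else 0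

open Pool.Agent.R412.RT in
lemma ext_eq {n : ℕ} (f : EuclideanSpace ℝ (Fin n) → ℂ) (x : EuclideanSpace ℝ (Fin (n + 1))) :
    ext f x = Ex ((cube n).indicator f) x := by
  have hc : MeasurableSet (cube n) := by
    have : cube n = ⋂ j, {ξ : EuclideanSpace ℝ (Fin n) | |ξ j| ≤ 1} := by
      ext ξ; simp [cube]
    rw [this]
    exact MeasurableSet.iInter fun j => measurableSet_le (by fun_prop) measurable_const
  unfold ext Ex
  rw [← integral_indicator hc]
  refine integral_congr_ae (Filter.Eventually.of_forall fun ξ => ?_)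
  simp only
  by_cases hξ : ξ ∈ cube n
  · rw [indicator_of_mem hξ, indicator_of_mem hξ, mul_comm]
    congr 1
    unfold ee
    congr 1
    have : ⟪Phi ξ, x⟫ = ∑ j, ξ j * x j.castSucc + (∑ j, ξ j ^ 2) * x (Fin.last n) := by
      rw [inner_eq, Fin.sum_univ_castSucc]
      simp
    rw [this]
    ring
  · rw [indicator_of_notMem hξ, indicator_of_notMem hξ, mul_zero]

lemma cube_meas (n : ℕ) : MeasurableSet (cube n) := by
  have : cube n = ⋂ j, {ξ : EuclideanSpace ℝ (Fin n) | |ξ j| ≤ 1} := by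
    ext ξ; simp [cube]
  rw [this]
  exact MeasurableSet.iInter fun j => measurableSet_le (by fun_prop) measurable_const

lemma cube_vol (n : ℕ) : volume (cube n) ≠ ∞ := by
  have hsub : cube n ⊆ Metric.closedBall (0 : EuclideanSpace ℝ (Fin n)) (Real.sqrt n) := by
    intro ξ hξ
    rw [mem_closedBall_zero_iff, EuclideanSpace.norm_eq]
    refine Real.sqrt_le_sqrt ?_
    have : ∑ i : Fin n, ‖ξ i‖ ^ 2 ≤ ∑ i : Fin n, (1 : ℝ) := by
      refine Finset.sum_le_sum fun i _ => ?_
      rw [Real.norm_eq_abs]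
      have h := hξ i
      have h0 := abs_nonneg (ξ i)
      nlinarith
    rw [Finset.sum_const, Finset.card_univ, Fintype.card_fin, nsmul_eq_mul, mul_one] at this
    exact this
  exact ((measure_mono hsub).trans_lt measure_closedBall_lt_top).ne

lemma test_iff {n : ℕ} (A : ℝ) (S : Finset (Fin (n + 1) → ℤ)) :
    Test A S ↔ Pool.Agent.N248.RM.Hd (cube n) A (Pool.Agent.N248.RM.un S) := by
  unfold Test Pool.Agent.N248.RM.Hd
  simp_rw [ext_eq]
  exact Iff.rfl

lemma test_mono {n : ℕ} {A B : ℝ} (h : A ≤ B) {S : Finset (Fin (n + 1) → ℤ)} (hS : Test A S) :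
    Test B S := fun f hf =>
  (hS f hf).trans (mul_le_mul' (ENNReal.ofReal_le_ofReal h) le_rfl)

open Pool.Agent.N248.RM in
lemma prob_eq {α : Type*} [inst : DecidableEq α] (J : Finset α) (p : α → ℝ)
    (A : Finset α → Prop) : prob J p A = Pb J p A := by
  have e : inst = fun a b => Classical.propDecidable (a = b) := Subsingleton.elim _ _
  subst e
  rfl

open Pool.Agent.N248.RM in
lemma part_one (n : ℕ) (J : Finset (Fin (n + 1) → ℤ)) (p : (Fin (n + 1) → ℤ) → ℝ) (M τ : ℝ)
    (hp : ∀ j ∈ J, 0 ≤ p j ∧ p j ≤ 1) (hM : 0 ≤ M) (hτ : 1 ≤ τ)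
    (h : ∀ f : EuclideanSpace ℝ (Fin n) → ℂ, MemLp f 2 (volume.restrict (cube n)) →
        ∑ j ∈ J, ENNReal.ofReal (p j) * ∫⁻ x in unitCube j, ‖ext f x‖ₑ ^ 2 ≤
          ENNReal.ofReal M * eLpNorm f 2 (volume.restrict (cube n)) ^ 2) :
    prob J p (fun S => ¬ Test (18 * max 1 (volume (cube n)).toReal * (M + τ)) S) ≤
      (∑ j ∈ J, p j) * Real.exp (-τ) := by
  classical
  simp_rw [ext_eq] at h
  have h1 := randomQ (cube n) (cube_vol n) (cube_meas n) J p hp M hM h τ hτ
  rw [prob_eq]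
  simp_rw [test_iff]
  exact h1

open Pool.Agent.N248.RM in
/-- **The restriction conjecture tested on random unions of unit cubes.** Let `d = n + 1`.

(1) There is `C` such that if the cubes `Q_j`, `j ∈ J`, are chosen independently with
probabilities `p_j`, and if `∑ p_j ∫_{Q_j} |Ef|² ≤ M ‖f‖_2²` for all `f ∈ L²`, then with
probability at least `1 - (∑ p_j) exp (-τ)` the union `B` of the chosen cubes satisfies
`∫_B |Ef|² ≤ C (M + τ) ‖f‖_2²` for all `f ∈ L²`.

(2) For every `A` there is `C` such that for all `R ≥ 2` and `k ≤ (2R)^d`, among the unions `B` of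
`k` unit cubes in `[-R,R)^d`, the proportion of those for which
`∫_B |Ef|² ≤ C (log R + k / R^(d-1)) ‖f‖_2²` fails for some `f ∈ L²` is at most `R^(-A)`. -/
theorem result (n : ℕ) :
    (∃ C : ℝ, ∀ (J : Finset (Fin (n + 1) → ℤ)) (p : (Fin (n + 1) → ℤ) → ℝ) (M τ : ℝ),
      (∀ j ∈ J, 0 ≤ p j ∧ p j ≤ 1) → 0 ≤ M → 1 ≤ τ →
      (∀ f : EuclideanSpace ℝ (Fin n) → ℂ, MemLp f 2 (volume.restrict (cube n)) →
        ∑ j ∈ J, ENNReal.ofReal (p j) * ∫⁻ x in unitCube j, ‖ext f x‖ₑ ^ 2 ≤
          ENNReal.ofReal M * eLpNorm f 2 (volume.restrict (cube n)) ^ 2) →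
      prob J p (fun S => ¬ Test (C * (M + τ)) S) ≤ (∑ j ∈ J, p j) * Real.exp (-τ)) ∧
    ∀ A : ℝ, 0 ≤ A → ∃ C : ℝ, ∀ R k : ℕ, 2 ≤ R → k ≤ (2 * R) ^ (n + 1) →
      ({S : Finset (Fin (n + 1) → ℤ) | S ⊆ box n R ∧ S.card = k ∧
          ¬ Test (C * (Real.log R + k / R ^ n)) S}.ncard : ℝ) ≤
        (R : ℝ) ^ (-A) * {S : Finset (Fin (n + 1) → ℤ) | S ⊆ box n R ∧ S.card = k}.ncard := by
  classical
  refine ⟨⟨18 * max 1 (volume (cube n)).toReal, fun J p M τ hp hM hτ h =>
    part_one n J p M τ hp hM hτ h⟩, ?_⟩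
  intro A hA
  set β : ℝ := max 1 (volume (cube n)).toReal with hβ
  have hβ1 : 1 ≤ β := le_max_left _ _
  set T : ℝ := A + 4 * (n + 1) + 1 with hT
  have hT2 : 2 ≤ T := by
    have : (0 : ℝ) ≤ n := Nat.cast_nonneg n
    rw [hT]; linarith
  refine ⟨18 * β * T, ?_⟩
  intro R k hR hk
  have hR2 : (2 : ℝ) ≤ R := by exact_mod_cast hR
  have hR0 : (0 : ℝ) < R := by linarith
  have hlog : 1 / 2 ≤ Real.log R := by
    have h1 : Real.log 2 ≤ Real.log R := Real.log_le_log (by norm_num) hR2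
    have h2 := Real.log_two_gt_d9
    linarith
  set τ : ℝ := T * Real.log R with hτd
  have hτ : 1 ≤ τ := by
    rw [hτd]
    nlinarith
  set N : ℕ := (2 * R) ^ (n + 1) with hN
  have hbox : (bx n R).card = N := bx_card n R
  have hN0 : (0 : ℝ) < N := by
    have : 0 < N := by rw [hN]; positivity
    exact_mod_cast this
  have hkN : (k : ℝ) ≤ N := by exact_mod_cast hk
  set M : ℝ := (k : ℝ) / N * (2 * R) with hM
  have hM0 : 0 ≤ M := by rw [hM]; positivity
  have hmain := randomQ (cube n) (cube_vol n) (cube_meas n) (bx n R) (fun _ => (k : ℝ) / N)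
    (fun j _ => ⟨by positivity, by rw [div_le_one hN0]; exact hkN⟩) M hM0
    (fun f hf => bx_energy (cube n) (cube_vol n) (cube_meas n) R ((k : ℝ) / N) f hf) τ hτ
  rw [Finset.sum_const, hbox, nsmul_eq_mul, mul_div_cancel₀ _ hN0.ne'] at hmain
  -- the event
  set G : Finset (Fin (n + 1) → ℤ) → Prop := fun S =>
    ¬ Hd (cube n) (18 * β * (M + τ)) (un S) with hG
  have hfc := fixed_card (bx n R) k (by rw [hbox]; exact hk) G
  rw [hbox] at hfc
  -- the comparison of the constants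
  have hMle : M + τ ≤ T * (Real.log R + k / R ^ n) := by
    have h1 : M ≤ (k : ℝ) / R ^ n := by
      rw [hM, hN]
      push_cast
      rw [pow_succ, div_mul_eq_mul_div, div_le_div_iff₀ (by positivity) (by positivity)]
      have h2 : (R : ℝ) ^ n ≤ (2 * R) ^ n := pow_le_pow_left₀ hR0.le (by linarith) n
      have hk0 : (0 : ℝ) ≤ k := Nat.cast_nonneg k
      calc (k : ℝ) * (2 * R) * R ^ n ≤ k * (2 * R) * (2 * R) ^ n :=
            mul_le_mul_of_nonneg_left h2 (by positivity)
        _ = k * ((2 * R) ^ n * (2 * R)) := by ring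
    have h3 : (k : ℝ) / R ^ n ≤ T * (k / R ^ n) := by
      have : (0 : ℝ) ≤ k / R ^ n := by positivity
      nlinarith
    rw [mul_add]
    linarith
  have hC : 18 * β * (M + τ) ≤ 18 * β * T * (Real.log R + k / R ^ n) := by
    calc 18 * β * (M + τ) ≤ 18 * β * (T * (Real.log R + k / R ^ n)) :=
          mul_le_mul_of_nonneg_left hMle (by positivity)
      _ = _ := by ring
  -- the cardinalities
  have hc1 : {S : Finset (Fin (n + 1) → ℤ) | S ⊆ box n R ∧ S.card = k}.ncard = N.choose k := by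
    rw [← hbox, ← Finset.card_powersetCard, ← Set.ncard_coe_finset]
    congr 1
    ext S
    rw [Finset.mem_coe, Finset.mem_powersetCard]
    rfl
  have hc2 : {S : Finset (Fin (n + 1) → ℤ) | S ⊆ box n R ∧ S.card = k ∧
          ¬ Test (18 * β * T * (Real.log R + k / R ^ n)) S}.ncard ≤
      ((Finset.powersetCard k (bx n R)).filter G).card := by
    rw [← Set.ncard_coe_finset]
    refine Set.ncard_le_ncard (fun S hS => ?_) (Finset.finite_toSet _)
    rw [Finset.mem_coe, Finset.mem_filter, Finset.mem_powersetCard]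
    refine ⟨⟨hS.1, hS.2.1⟩, fun hHd => hS.2.2 ?_⟩
    exact test_mono hC ((test_iff _ _).2 hHd)
  rw [hc1]
  have hk0 : (0 : ℝ) ≤ k := Nat.cast_nonneg k
  have hN1 : (1 : ℝ) ≤ N := by
    have : 1 ≤ N := by rw [hN]; exact Nat.one_le_iff_ne_zero.2 (by positivity)
    exact_mod_cast this
  -- the arithmetic
  have hexp : Real.exp (-τ) = (R : ℝ) ^ (-T) := by
    rw [Real.rpow_def_of_pos hR0, hτd]
    congr 1
    ring
  have hpow : ((N : ℝ) + 1) * k ≤ (R : ℝ) ^ (4 * ((n : ℝ) + 1) + 1) := by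
    have h1 : ((N : ℝ) + 1) * k ≤ 2 * (N : ℝ) ^ 2 := by nlinarith
    have h2 : (N : ℝ) ≤ (R : ℝ) ^ (2 * (n + 1)) := by
      rw [hN]
      push_cast
      rw [pow_mul]
      refine pow_le_pow_left₀ (by positivity) ?_ (n + 1)
      nlinarith
    have h3 : (N : ℝ) ^ 2 ≤ (R : ℝ) ^ (4 * (n + 1)) := by
      calc (N : ℝ) ^ 2 ≤ ((R : ℝ) ^ (2 * (n + 1))) ^ 2 := pow_le_pow_left₀ hN0.le h2 2
        _ = _ := by rw [← pow_mul]; congr 1; ring
    have h4 : (R : ℝ) ^ (4 * ((n : ℝ) + 1) + 1) = R * (R : ℝ) ^ (4 * (n + 1)) := by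
      rw [Real.rpow_add_one hR0.ne', mul_comm]
      congr 1
      rw [← Real.rpow_natCast]
      congr 1
      push_cast
      ring
    rw [h4]
    calc ((N : ℝ) + 1) * k ≤ 2 * (N : ℝ) ^ 2 := h1
      _ ≤ R * (R : ℝ) ^ (4 * (n + 1)) := mul_le_mul hR2 h3 (by positivity) hR0.le
  have hch : (0 : ℝ) ≤ (N.choose k : ℝ) := Nat.cast_nonneg _
  calc (({S : Finset (Fin (n + 1) → ℤ) | S ⊆ box n R ∧ S.card = k ∧
          ¬ Test (18 * β * T * (Real.log R + k / R ^ n)) S}.ncard : ℕ) : ℝ)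
      ≤ (((Finset.powersetCard k (bx n R)).filter G).card : ℝ) := by exact_mod_cast hc2
    _ ≤ ((N : ℝ) + 1) * (N.choose k : ℝ) * Pb (bx n R) (fun _ => (k : ℝ) / N) G := hfc
    _ ≤ ((N : ℝ) + 1) * (N.choose k : ℝ) * (k * Real.exp (-τ)) :=
        mul_le_mul_of_nonneg_left hmain (by positivity)
    _ = (((N : ℝ) + 1) * k) * Real.exp (-τ) * (N.choose k : ℝ) := by ring
    _ ≤ ((R : ℝ) ^ (4 * ((n : ℝ) + 1) + 1) * (R : ℝ) ^ (-T)) * (N.choose k : ℝ) := by
        rw [hexp]
        refine mul_le_mul_of_nonneg_right ?_ hch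
        exact mul_le_mul_of_nonneg_right hpow (by positivity)
    _ = (R : ℝ) ^ (-A) * (N.choose k : ℝ) := by
        rw [← Real.rpow_add hR0]
        congr 2
        rw [hT]
        ring

end Pool.Agent.Results.MP_b7167f_an.RandomTests
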